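import Mathlib
import Pool.Agent.K4H98.BarelyIndep

/-!
# Barely independent families and eventually splitting sequences

ZFC theorem: for a cardinal `κ` of uncountable cofinality (for instance `κ = ω₁`), a barely
independent family over `κ` exists if and only if there are sets `S_x ⊆ ω` (`x < κ`) such that
every infinite `R ⊆ ω` is split by all but fewer than `κ` of them.
-/

open Cardinal Set Pool.Agent.K4H98.BarelyIndep

namespace Pool.Agent.Results.MP_ce2de7_lc.EventuallySplitting

/-- For `X` of uncountable cofinality, a barely independent family over `X` exists iff there is a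
family `S : X → 𝒫(ω)` such that every infinite `R ⊆ ω` is split by all but `< #X` many `S x`. -/
theorem result (X : Type) (hX : ℵ₀ < (#X).ord.cof) :
    (∃ I : Set (Set X), BarelyIndependent X I) ↔
      ∃ S : X → Set ℕ, ∀ R : Set ℕ, R.Infinite → #({x | ¬ Splits (S x) R} : Set X) < #X := by
  constructor
  · rintro ⟨I, hI⟩
    exact eventually_splitting_of_barely hX hI
  · rintro ⟨S, hS⟩
    exact barely_of_eventually_splitting (hX.trans_le (Ordinal.cof_ord_le _)) S hS

end Pool.Agent.Results.MP_ce2de7_lc.EventuallySplitting
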