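import Mathlib
import Pool.Agent.K4H98.BarelyIndep

/-!
# Barely independent families need `𝔰 ≤ κ`

ZFC theorem: if there is a barely independent family over an infinite cardinal `κ` (given here as
an arbitrary infinite type `X` of size `κ`), then the splitting number satisfies `𝔰 ≤ κ`.
In particular a barely independent family over `ω₁` gives `𝔰 = ω₁`, so in every model of
`𝔯 = ω₁ < 𝔰` the implication of Q1 fails.
-/

open Cardinal Set Pool.Agent.K4H98.BarelyIndep

namespace Pool.Agent.Results.MP_ce2de7_lc.SplittingBound

/-- If there is a barely independent family over the infinite set `X`, then `𝔰 ≤ #X`. -/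
theorem result (X : Type) (hX : Infinite X) (h : ∃ I : Set (Set X), BarelyIndependent X I) :
    splittingNumber ≤ #X := by
  obtain ⟨I, hI⟩ := h
  exact splittingNumber_le (Cardinal.infinite_iff.mp hX) hI

end Pool.Agent.Results.MP_ce2de7_lc.SplittingBound
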